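import Pool.Agent.N928.FG.Stm

/-! Project FG (helper928): continuity and the derivative of `Z` (helper722). -/

set_option autoImplicit false

namespace Pool.Agent.N722.FG

open Pool.Agent.N928.FG Filter Topology

section

variable {a : ℕ → ℝ} {C : ℝ}

theorem sum_na (ha : ∀ n, 0 ≤ a n) (hC : ∀ n : ℕ, 1 ≤ n → a n ≤ C / (n : ℝ) ^ 3) :
    Summable (fun n : ℕ => (n : ℝ) * a n) := by
  have h1 : Summable (fun n : ℕ => C * (1 / (n : ℝ) ^ 2)) :=
    (Real.summable_one_div_nat_pow.2 (by norm_num)).mul_left C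
  refine Summable.of_nonneg_of_le (fun n => mul_nonneg (Nat.cast_nonneg _) (ha n)) ?_ h1
  intro n
  rcases Nat.eq_zero_or_pos n with h | h
  · subst h; simp
  · have hn : (0 : ℝ) < n := by exact_mod_cast h
    calc (n : ℝ) * a n ≤ n * (C / (n : ℝ) ^ 3) := by
          apply mul_le_mul_of_nonneg_left (hC n h) hn.le
      _ = C * (1 / (n : ℝ) ^ 2) := by field_simp

theorem sum_a (ha : ∀ n, 0 ≤ a n) (hC : ∀ n : ℕ, 1 ≤ n → a n ≤ C / (n : ℝ) ^ 3) :
    Summable a := by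
  rw [← summable_nat_add_iff 1]
  have h1 := (summable_nat_add_iff 1).2 (sum_na ha hC)
  refine Summable.of_nonneg_of_le (fun n => ha _) ?_ h1
  intro n
  have h2 : (1 : ℝ) ≤ ((n + 1 : ℕ) : ℝ) := by
    push_cast
    have : (0 : ℝ) ≤ n := Nat.cast_nonneg _
    linarith
  calc a (n + 1) = 1 * a (n + 1) := (one_mul _).symm
    _ ≤ ((n + 1 : ℕ) : ℝ) * a (n + 1) := mul_le_mul_of_nonneg_right h2 (ha _)

theorem norm_le (ha : ∀ n, 0 ≤ a n) {u : ℝ} (hu : u ∈ Set.Icc (0 : ℝ) 1) (n : ℕ) :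
    ‖a n * u ^ n‖ ≤ a n := by
  rw [Real.norm_eq_abs, abs_of_nonneg (mul_nonneg (ha n) (pow_nonneg hu.1 _))]
  calc a n * u ^ n ≤ a n * 1 :=
        mul_le_mul_of_nonneg_left (pow_le_one₀ hu.1 hu.2) (ha n)
    _ = a n := mul_one _

theorem cont (ha : ∀ n, 0 ≤ a n) (hs : Summable a) :
    ContinuousOn (fun u : ℝ => ∑' n, a n * u ^ n) (Set.Icc 0 1) :=
  continuousOn_tsum (fun n => (continuous_const.mul (continuous_pow n)).continuousOn) hs
    (fun n _ hu => norm_le ha hu n)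

theorem one_le (ha : ∀ n, 0 ≤ a n) (hs : Summable a) (h0 : a 0 = 1) {u : ℝ}
    (hu : u ∈ Set.Icc (0 : ℝ) 1) : 1 ≤ ∑' n, a n * u ^ n := by
  have h1 : Summable (fun n => a n * u ^ n) := Summable.of_norm_bounded hs (norm_le ha hu)
  have h2 := h1.le_tsum 0 (fun n _ => mul_nonneg (ha n) (pow_nonneg hu.1 _))
  simpa [h0] using h2

theorem deriv (ha : ∀ n, 0 ≤ a n) (hs : Summable a) (hs1 : Summable (fun n : ℕ => (n : ℝ) * a n))
    {u : ℝ} (hu : u ∈ Set.Ioo (0 : ℝ) 1) :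
    HasDerivAt (fun z : ℝ => ∑' n, a n * z ^ n) (∑' n : ℕ, a n * ((n : ℝ) * u ^ (n - 1))) u := by
  refine hasDerivAt_tsum_of_isPreconnected (𝕜 := ℝ) (t := Set.Ioo (0 : ℝ) 1) (y₀ := u)
    (g := fun n z => a n * z ^ n) (g' := fun n z => a n * ((n : ℝ) * z ^ (n - 1))) hs1 isOpen_Ioo
    isPreconnected_Ioo ?_ ?_ hu ?_ hu
  · intro n y _
    exact (hasDerivAt_pow n y).const_mul (a n)
  · intro n y hy
    rw [Real.norm_eq_abs, abs_of_nonneg (mul_nonneg (ha n) (mul_nonneg (Nat.cast_nonneg _)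
      (pow_nonneg hy.1.le _)))]
    calc a n * ((n : ℝ) * y ^ (n - 1)) ≤ a n * ((n : ℝ) * 1) := by
          apply mul_le_mul_of_nonneg_left _ (ha n)
          apply mul_le_mul_of_nonneg_left _ (Nat.cast_nonneg _)
          exact pow_le_one₀ hy.1.le hy.2.le
      _ = (n : ℝ) * a n := by ring
  · exact Summable.of_norm_bounded hs (norm_le ha ⟨hu.1.le, hu.2.le⟩)

theorem shift (u : ℝ) :
    u * ∑' n : ℕ, a n * ((n : ℝ) * u ^ (n - 1)) = ∑' n : ℕ, (n : ℝ) * a n * u ^ n := by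
  rw [← tsum_mul_left]
  apply tsum_congr
  intro n
  rcases n with _ | n
  · simp
  · rw [Nat.add_sub_cancel, pow_succ]
    ring

end

theorem an_zero (β : ℝ) : an β 0 = 1 := by
  unfold an
  simp [s]

theorem t_DZ : S_AB → S_S1 → S_DZ := by
  intro hAB hS1 β hβ hβ2
  obtain ⟨c, C, -, -, hC⟩ := hAB.1 β hβ hβ2
  have hnn : ∀ n, 0 ≤ an β n := by
    intro n
    unfold an
    apply Finset.prod_nonneg
    intro i _
    have hb : 0 < bet β i ∧ bet β i ≤ 1 / 2 := by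
      unfold bet
      split_ifs
      · constructor <;> norm_num
      · exact ⟨hβ, hβ2⟩
    exact (hS1 _ hb.1 hb.2 n 0).1
  have hC' : ∀ n : ℕ, 1 ≤ n → an β n ≤ C / (n : ℝ) ^ 3 := fun n hn => (hC n hn).2
  have hs := sum_a hnn hC'
  have hs1 := sum_na hnn hC'
  have hG1 : ∀ u ∈ Set.Icc (0 : ℝ) 1, 1 ≤ GG β u := fun u hu => one_le hnn hs (an_zero β) hu
  have hW1 : ∀ u ∈ Set.Icc (0 : ℝ) 1, 1 ≤ W β u := by
    intro u hu
    have := hG1 u hu
    unfold W
    linarith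
  have hGc : ContinuousOn (GG β) (Set.Icc 0 1) := cont hnn hs
  have hWc : ContinuousOn (W β) (Set.Icc 0 1) := (continuousOn_const.mul hGc).sub continuousOn_const
  have hNc : ContinuousOn (fun u : ℝ => ∑' n : ℕ, (n : ℝ) * an β n * u ^ n) (Set.Icc 0 1) :=
    cont (a := fun n => (n : ℝ) * an β n) (fun n => mul_nonneg (Nat.cast_nonneg _) (hnn n)) hs1
  have hWne : ∀ u ∈ Set.Icc (0 : ℝ) 1, W β u ≠ 0 := fun u hu => by
    have := hW1 u hu
    linarith
  refine ⟨hW1, hWc, ?_, ?_, ?_⟩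
  · exact continuousOn_id.mul (continuousOn_const.add (continuousOn_const.div hWc hWne))
  · exact ((hWc.pow 2).add hWc).sub (continuousOn_const.mul hNc)
  · intro u hu
    have huI : u ∈ Set.Icc (0 : ℝ) 1 := ⟨hu.1.le, hu.2.le⟩
    set G' := ∑' n : ℕ, an β n * ((n : ℝ) * u ^ (n - 1)) with hG'
    have hG : HasDerivAt (GG β) G' u := deriv hnn hs hs1 hu
    have hW : HasDerivAt (W β) (2 * G') u := (hG.const_mul 2).sub_const 1
    have hne := hWne u huI
    have h1 : HasDerivAt (fun z => 1 / W β z) (-(2 * G') / W β u ^ 2) u := by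
      have h := hW.inv hne
      have e : (fun z => 1 / W β z) = (W β)⁻¹ := by
        funext z
        rw [Pi.inv_apply, one_div]
      rw [e]
      exact h
    have h2 : HasDerivAt (fun z => 1 + 1 / W β z) (-(2 * G') / W β u ^ 2) u := by
      simpa using h1.const_add 1
    have h3 : HasDerivAt (Z β) (1 * (1 + 1 / W β u) + u * (-(2 * G') / W β u ^ 2)) u :=
      (hasDerivAt_id u).mul h2
    have h4 : D β u = W β u ^ 2 + W β u - 2 * (u * G') := by
      unfold D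
      rw [hG', shift]
    convert h3 using 1
    rw [h4]
    field_simp
    ring

end Pool.Agent.N722.FG
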